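import Mathlib
import Pool.Agent.Work.MP_156639_an_helper49.Defs
import Pool.Agent.Work.MP_156639_an_helper49.CharacterizationProof

/-!
# Complemented subspaces of Banach spaces with the separable complementation property
-/

set_option autoImplicit false

universe u

open TopologicalSpace Set
open scoped ENNReal lp
open Pool.Agent.Work.MP_156639_an

namespace Pool.Agent.Results.MP_156639_an.Characterization

theorem result (𝕜 : Type) [RCLike 𝕜] (p : ℝ≥0∞) [Fact (1 ≤ p)] (hp : p ≠ ⊤) :
    -- intrinsic characterisation of the complemented subspaces of spaces with the SCP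
    (∀ (Y : Type u) [NormedAddCommGroup Y] [NormedSpace 𝕜 Y] [CompleteSpace Y],
      List.TFAE [
        -- `Y` is isomorphic to a complemented subspace of a Banach space with the SCP
        ∃ (X : Type u) (_ : NormedAddCommGroup X) (_ : NormedSpace 𝕜 X) (_ : CompleteSpace X),
          SCP 𝕜 X ∧ ∃ W : Submodule 𝕜 X, W.ClosedComplemented ∧ Nonempty (Y ≃L[𝕜] W),
        -- every separable subspace is fixed by an operator of `Y` with separable range
        SepFix 𝕜 Y,
        -- the complement can be taken to be an `ℓ_p`-sum of separable Banach spaces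
        ∃ (ι : Type u) (E : ι → Type u) (_ : ∀ i, NormedAddCommGroup (E i))
          (_ : ∀ i, NormedSpace 𝕜 (E i)),
          (∀ i, CompleteSpace (E i)) ∧ (∀ i, SeparableSpace (E i)) ∧ SCP 𝕜 (Y × lp E p)]) ∧
    -- three equivalent forms of Q1
    List.TFAE [
      -- the positive answer to Q1
      ∀ (X : Type u) [NormedAddCommGroup X] [NormedSpace 𝕜 X] [CompleteSpace X], SCP 𝕜 X →
        ∀ Y : Submodule 𝕜 X, Y.ClosedComplemented → SCP 𝕜 Y,
      -- the separable fixing property implies the SCP
      ∀ (Y : Type u) [NormedAddCommGroup Y] [NormedSpace 𝕜 Y] [CompleteSpace Y],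
        SepFix 𝕜 Y → SCP 𝕜 Y,
      -- the positive answer to Q1 when the complement is an `ℓ_p`-sum of separable Banach spaces
      ∀ (Y : Type u) [NormedAddCommGroup Y] [NormedSpace 𝕜 Y] [CompleteSpace Y]
        (ι : Type u) (E : ι → Type u) [∀ i, NormedAddCommGroup (E i)]
        [∀ i, NormedSpace 𝕜 (E i)] [∀ i, CompleteSpace (E i)] [∀ i, SeparableSpace (E i)],
        SCP 𝕜 (Y × lp E p) → SCP 𝕜 Y] :=
  Pool.Agent.Work.MP_156639_an_helper49.CharacterizationProof.main 𝕜 p hp

end Pool.Agent.Results.MP_156639_an.Characterization
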