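import Mathlib
import Pool.Agent.Work.MP_156639_an_helper49.Defs
import Pool.Agent.Work.MP_156639_an_helper49.RichCriterionProof

/-!
# Positive answers to the complementation question under additional hypotheses
-/

set_option autoImplicit false

open TopologicalSpace Set
open Pool.Agent.Work.MP_156639_an

namespace Pool.Agent.Results.MP_156639_an.RichCriterion

theorem result {𝕜 : Type*} [RCLike 𝕜] {X : Type*} [NormedAddCommGroup X] [NormedSpace 𝕜 X]
    [CompleteSpace X] (hX : SCP 𝕜 X) (Y : Submodule 𝕜 X) (hY : Y.ClosedComplemented) :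
    -- a rich family of separable subspaces complemented in their biduals suffices
    (∀ 𝓕 : Set (Submodule 𝕜 Y), RichFamily 𝕜 Y 𝓕 → (∀ F ∈ 𝓕, BidualComplemented 𝕜 F) →
      SCP 𝕜 Y) ∧
    -- a separable complement suffices
    (∀ q : X →L[𝕜] Y, (∀ y : Y, q y = y) → IsSeparable (q.ker : Set X) → SCP 𝕜 Y) ∧
    -- complementation of separable subspaces of `Y` is decided in separable superspaces
    (∀ T : Submodule 𝕜 Y, IsSeparable (T : Set Y) →
      (T.ClosedComplemented ↔ ∀ T' : Submodule 𝕜 Y, IsClosed (T' : Set Y) →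
        IsSeparable (T' : Set Y) → ∀ hTT' : T ≤ T',
        ∃ p : T' →L[𝕜] T, ∀ t (ht : t ∈ T), p ⟨t, hTT' ht⟩ = ⟨t, ht⟩)) :=
  Pool.Agent.Work.MP_156639_an_helper49.RichCriterionProof.main hX Y hY

end Pool.Agent.Results.MP_156639_an.RichCriterion
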